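import Mathlib
import Pool.Agent.H59.NPM.FinalF
import Pool.Agent.H59.NPM.Stage

/-!
# MP_948e80_an: non-uniqueness of weak solutions of the porous medium equation with nonlocal pressure

`N = 2`, `m = 2`, `s = 3/4`, `u₀ (x) = (1 + |x|)^(-3)`: on every time interval `(0, T)` the Cauchy problem
`∂ₜ u = ∇ · (u^(m-1) ∇ (-Δ)^(-s) u)`, `u (·, 0) = u₀`, has infinitely many weak solutions, and they accumulate in
`L¹ (ℝ² × (0, T))` at every translating profile `u₀ (x - t a)`, `a ∈ ℝ²`.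
-/

set_option autoImplicit false

open MeasureTheory Set
open scoped ENNReal

namespace Pool.Agent.Results.MP_948e80_an.NonUniqueness

/-- the space-time strip `ℝᴺ × (0, T)` -/
def strip (N : ℕ) (T : ℝ) : Set (EuclideanSpace ℝ (Fin N) × ℝ) := {p | 0 < p.2 ∧ p.2 < T}

/-- the constant `c_{N,s} = Γ(N/2 - s) / (4^s π^(N/2) Γ(s))` of the Riesz potential with symbol `|ξ|^(-2s)` -/
noncomputable def rieszConst (N : ℕ) (s : ℝ) : ℝ :=
  Real.Gamma ((N : ℝ) / 2 - s) / ((4 : ℝ) ^ s * Real.pi ^ ((N : ℝ) / 2) * Real.Gamma s)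

/-- the pressure `(-Δ)^(-s) u (x, t) = c_{N,s} ∫ |x - y|^(-(N - 2s)) u (y, t) dy` -/
noncomputable def pressure (N : ℕ) (s : ℝ) (u : EuclideanSpace ℝ (Fin N) × ℝ → ℝ)
    (p : EuclideanSpace ℝ (Fin N) × ℝ) : ℝ :=
  rieszConst N s * ∫ y : EuclideanSpace ℝ (Fin N), ‖p.1 - y‖ ^ (-((N : ℝ) - 2 * s)) * u (y, p.2)

/-- `V = ∇ (-Δ)^(-s) u` on the strip in the sense of distributions -/
def IsPressureGradient (N : ℕ) (s T : ℝ) (u : EuclideanSpace ℝ (Fin N) × ℝ → ℝ)
    (V : EuclideanSpace ℝ (Fin N) × ℝ → EuclideanSpace ℝ (Fin N)) : Prop :=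
  ∀ ψ : EuclideanSpace ℝ (Fin N) × ℝ → ℝ, ContDiff ℝ 1 ψ → HasCompactSupport ψ → tsupport ψ ⊆ strip N T →
    ∀ e : EuclideanSpace ℝ (Fin N), ∫ p, pressure N s u p * fderiv ℝ ψ p (e, 0) = - ∫ p, inner ℝ (V p) e * ψ p

/-- the weak formulation `∫∫ u φ_t - ∫∫ u^(m-1) V · ∇ φ + ∫ u₀ φ (·, 0) = 0` for all `C¹` functions `φ` of compact support
in `{t < T}`, the integrals being convergent -/
def WeakForm (N : ℕ) (m T : ℝ) (u₀ : EuclideanSpace ℝ (Fin N) → ℝ) (u : EuclideanSpace ℝ (Fin N) × ℝ → ℝ)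
    (V : EuclideanSpace ℝ (Fin N) × ℝ → EuclideanSpace ℝ (Fin N)) : Prop :=
  ∀ φ : EuclideanSpace ℝ (Fin N) × ℝ → ℝ, ContDiff ℝ 1 φ → HasCompactSupport φ → tsupport φ ⊆ {p | p.2 < T} →
    IntegrableOn (fun p => u p * fderiv ℝ φ p (0, 1)) (strip N T) ∧
    IntegrableOn (fun p => u p ^ (m - 1) * fderiv ℝ φ p (V p, 0)) (strip N T) ∧
    (∫ p in strip N T, u p * fderiv ℝ φ p (0, 1))
      - (∫ p in strip N T, u p ^ (m - 1) * fderiv ℝ φ p (V p, 0))
      + (∫ x : EuclideanSpace ℝ (Fin N), u₀ x * φ (x, 0)) = 0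

/-- `u` is a weak solution on `ℝᴺ × (0, T)` with initial datum `u₀`; `V` is the (weak) spatial gradient of the pressure. -/
structure IsWeakSolution (N : ℕ) (m s T : ℝ) (u₀ : EuclideanSpace ℝ (Fin N) → ℝ)
    (u : EuclideanSpace ℝ (Fin N) × ℝ → ℝ)
    (V : EuclideanSpace ℝ (Fin N) × ℝ → EuclideanSpace ℝ (Fin N)) : Prop where
  /-- `u` is measurable -/
  measurable : Measurable u
  /-- `u ≥ 0` -/
  nonneg : ∀ p, 0 ≤ u p
  /-- (i) `u ∈ L¹_loc` -/
  locInt : LocallyIntegrableOn u (strip N T)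
  /-- the Riesz potential converges absolutely at almost every point of the strip -/
  potential : ∀ᵐ p, p ∈ strip N T →
    Integrable fun y : EuclideanSpace ℝ (Fin N) => ‖p.1 - y‖ ^ (-((N : ℝ) - 2 * s)) * u (y, p.2)
  /-- the pressure is in `L¹_loc` -/
  pressure_locInt : LocallyIntegrableOn (pressure N s u) (strip N T)
  /-- (ii) `V ∈ L¹_loc` -/
  grad_locInt : LocallyIntegrableOn V (strip N T)
  /-- `V = ∇ (-Δ)^(-s) u` in the sense of distributions -/
  grad : IsPressureGradient N s T u V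
  /-- (iii) `u^(m-1) ∇ (-Δ)^(-s) u ∈ L¹_loc` -/
  flux_locInt : LocallyIntegrableOn (fun p => u p ^ (m - 1) • V p) (strip N T)
  /-- the weak formulation with datum `u₀` -/
  weak : WeakForm N m T u₀ u V

/-- the initial datum `u₀ (x) = (1 + |x|)^(-3)` on the plane -/
noncomputable def datum (x : EuclideanSpace ℝ (Fin 2)) : ℝ := (1 + ‖x‖) ^ (-3 : ℝ)

/-- `u` is a weak solution for `N = 2`, `m = 2`, `s = 3/4` on `(0, T)` with datum `datum`, and both `u` and the flux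
`u ∇ (-Δ)^(-s) u` are integrable on the strip -/
def Sol (T : ℝ) (u : EuclideanSpace ℝ (Fin 2) × ℝ → ℝ) : Prop :=
  ∃ V : EuclideanSpace ℝ (Fin 2) × ℝ → EuclideanSpace ℝ (Fin 2), IsWeakSolution 2 2 (3 / 4) T datum u V ∧
    IntegrableOn u (strip 2 T) ∧ IntegrableOn (fun p => u p • V p) (strip 2 T)

open Pool.Agent.H59.NPM

private theorem strip_eq (T : ℝ) : strip 2 T = (Set.univ : Set E) ×ˢ Set.Ioo (0 : ℝ) T := by
  ext p
  simp [strip]

private theorem us_ne' (T : ℝ) (hT : 0 < T) (a b : E) (hab : a ≠ b) :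
    0 < ∫⁻ p, ‖Fin.us T a p - Fin.us T b p‖ₑ := by
  rw [pos_iff_ne_zero]
  intro h
  have hm : Measurable (fun p => ‖Fin.us T a p - Fin.us T b p‖ₑ) :=
    ((Fin.measurable_us T a).sub (Fin.measurable_us T b)).enorm
  rw [lintegral_eq_zero_iff hm] at h
  have h1 : Fin.us T a =ᵐ[volume.restrict ((Set.univ : Set E) ×ˢ Set.Ioo (0 : ℝ) T)] Fin.us T b := by
    apply ae_restrict_of_ae
    filter_upwards [h] with p hp
    have : Fin.us T a p - Fin.us T b p = 0 := by simpa using hp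
    linarith
  have h2 : (fun p : E × ℝ => Fin.u0 (p.1 - p.2 • a))
      =ᵐ[volume.restrict ((Set.univ : Set E) ×ˢ Set.Ioo (0 : ℝ) T)]
      (fun p : E × ℝ => Fin.u0 (p.1 - p.2 • b)) := by
    filter_upwards [h1, ae_restrict_mem (Fin.measS T)] with p hp hmem
    have h3 := Fin.us_of_mem T a p.1 p.2 hmem.2
    have h4 := Fin.us_of_mem T b p.1 p.2 hmem.2
    rw [← h3, ← h4]
    exact hp
  have h5 := Measure.eqOn_open_of_ae_eq h2 (isOpen_univ.prod isOpen_Ioo)
    (Fin.continuous_shift a).continuousOn (Fin.continuous_shift b).continuousOn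
  have h6 : ((T / 2) • b, T / 2) ∈ (Set.univ : Set E) ×ˢ Set.Ioo (0 : ℝ) T :=
    ⟨Set.mem_univ _, by constructor <;> linarith⟩
  have h7 := h5 h6
  simp only [Fin.u0, sub_self, norm_zero, add_zero, Real.one_rpow, ← smul_sub] at h7
  have h8 : 0 < ‖(T / 2) • (b - a)‖ := by
    rw [norm_pos_iff]
    exact smul_ne_zero (by linarith) (sub_ne_zero.2 (Ne.symm hab))
  have h9 : (1 + ‖(T / 2) • (b - a)‖) ^ (-(3 : ℝ)) < 1 :=
    Real.rpow_lt_one_of_one_lt_of_neg (by linarith) (by norm_num)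
  linarith

private theorem sol {T : ℝ} {v : E × ℝ → ℝ} {H : E × ℝ → E} (hs : Sub T Fin.u0 v H)
    (hH : ∀ᵐ p, H p = v p • G (Fin.kk (Fin.cc / 2)) v p) :
    IsWeakSolution 2 2 (3 / 4) T datum v (G (Fin.kk (Fin.cc / 2)) v) := by
  have hcc := Fin.cc_pos
  have hG := Fin.G_facts (Fin.cc / 2) (by linarith) hs.measu hs.intu
  have hA : StronglyMeasurable (fun z : E => ‖z‖ ^ (-(1 / 2) : ℝ)) :=
    Measurable.stronglyMeasurable (by fun_prop)
  have hA1 : ∀ z : E, ‖‖z‖ ^ (-(1 / 2) : ℝ)‖ₑ ≤ ENNReal.ofReal 1 * Fin.pw (1 / 2) z := by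
    intro z
    have := Fin.enorm_A1 1 zero_le_one z
    simpa using this
  have hP := Fin.conv_facts (1 / 2) (by norm_num) (by norm_num) hs.measu hs.intu
    (fun z : E => ‖z‖ ^ (-(1 / 2) : ℝ)) hA 1 hA1
  have hcomm : ∀ p : E × ℝ, (fun y : E => v (y, p.2) • ‖p.1 - y‖ ^ (-(1 / 2) : ℝ))
      = fun y : E => ‖p.1 - y‖ ^ (-(1 / 2) : ℝ) * v (y, p.2) := by
    intro p
    funext y
    rw [smul_eq_mul, mul_comm]
  have hexp : (-(((2 : ℕ) : ℝ) - 2 * (3 / 4 : ℝ))) = -(1 / 2) := by norm_num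
  have hexp2 : ((2 : ℝ) - 1) = 1 := by norm_num
  have hpr : pressure 2 (3 / 4) v = fun p : E × ℝ => Fin.cc * ∫ y : E, ‖p.1 - y‖ ^ (-(1 / 2) : ℝ) * v (y, p.2) := by
    funext p
    rw [pressure, hexp]
    rfl
  have hflux : (fun p => v p ^ ((2 : ℝ) - 1) • G (Fin.kk (Fin.cc / 2)) v p) =
      fun p => v p • G (Fin.kk (Fin.cc / 2)) v p := by
    funext p
    rw [hexp2, Real.rpow_one]
  have hfl2 : ∀ φ : E × ℝ → ℝ, (fun p => v p ^ ((2 : ℝ) - 1) * fderiv ℝ φ p (G (Fin.kk (Fin.cc / 2)) v p, (0 : ℝ))) =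
      fun p => v p * fderiv ℝ φ p (G (Fin.kk (Fin.cc / 2)) v p, (0 : ℝ)) := by
    intro φ
    funext p
    rw [hexp2, Real.rpow_one]
  have hi1 : ∀ φ : E × ℝ → ℝ, ContDiff ℝ 1 φ → HasCompactSupport φ →
      Integrable (fun p => v p * fderiv ℝ φ p ((0 : E), (1 : ℝ))) := by
    intro φ hφ hφc
    have hc1 : Continuous fun p => fderiv ℝ φ p ((0 : E), (1 : ℝ)) :=
      (hφ.continuous_fderiv one_ne_zero).clm_apply continuous_const
    obtain ⟨M1, hM1⟩ := (hφc.fderiv_apply ℝ ((0 : E), (1 : ℝ))).exists_bound_of_continuous hc1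
    exact hs.intu.mul_bdd (c := M1) hc1.aestronglyMeasurable (Filter.Eventually.of_forall hM1)
  have hae : ∀ φ : E × ℝ → ℝ, (fun p => fderiv ℝ φ p (H p, (0 : ℝ))) =ᵐ[volume]
      fun p => v p * fderiv ℝ φ p (G (Fin.kk (Fin.cc / 2)) v p, (0 : ℝ)) := by
    intro φ
    filter_upwards [hH] with p hp
    have h1 : (H p, (0 : ℝ)) = v p • (G (Fin.kk (Fin.cc / 2)) v p, (0 : ℝ)) := by
      rw [Prod.smul_mk, smul_zero, hp]
    rw [h1, map_smul, smul_eq_mul]
  have hi3 : ∀ φ : E × ℝ → ℝ, ContDiff ℝ 1 φ → HasCompactSupport φ →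
      Integrable (fun p => v p * fderiv ℝ φ p (G (Fin.kk (Fin.cc / 2)) v p, (0 : ℝ))) := by
    intro φ hφ hφc
    have hcf : Continuous (fderiv ℝ φ) := hφ.continuous_fderiv one_ne_zero
    obtain ⟨M2, hM2⟩ := (hφc.fderiv ℝ).exists_bound_of_continuous hcf
    have hi2 : Integrable (fun p => fderiv ℝ φ p (H p, (0 : ℝ))) := by
      have hpair : AEStronglyMeasurable (fun p : E × ℝ => (H p, (0 : ℝ))) :=
        hs.intF.aestronglyMeasurable.prodMk aestronglyMeasurable_const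
      have hop : Continuous (Function.uncurry
          (fun (L : (E × ℝ) →L[ℝ] ℝ) (q : E × ℝ) => L q)) :=
        isBoundedBilinearMap_apply.continuous
      have hm : AEStronglyMeasurable (fun p : E × ℝ => fderiv ℝ φ p (H p, (0 : ℝ))) :=
        hop.comp_aestronglyMeasurable₂ hcf.aestronglyMeasurable hpair
      refine Integrable.mono' (hs.intF.norm.const_mul M2) hm ?_
      refine Filter.Eventually.of_forall fun p => ?_
      refine (ContinuousLinearMap.le_opNorm _ _).trans ?_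
      have h1 : ‖((H p, (0 : ℝ)) : E × ℝ)‖ = ‖H p‖ := by
        rw [Prod.norm_mk, norm_zero]
        exact max_eq_left (norm_nonneg _)
      rw [h1]
      exact mul_le_mul_of_nonneg_right (hM2 p) (norm_nonneg _)
    exact hi2.congr (hae φ)
  refine ⟨hs.measu, hs.nonneg, hs.intu.locallyIntegrable.locallyIntegrableOn _, ?_, ?_,
    hG.2.locallyIntegrableOn _, ?_, ?_, ?_⟩
  · filter_upwards [hP.1] with p hp
    intro _
    rw [hexp, ← hcomm p]
    exact hp
  · have h1 : pressure 2 (3 / 4) v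
        = fun p : E × ℝ => Fin.cc • ∫ y : E, v (y, p.2) • ‖p.1 - y‖ ^ (-(1 / 2) : ℝ) := by
      rw [hpr]
      funext p
      rw [hcomm p, smul_eq_mul]
    rw [h1]
    exact (hP.2.smul Fin.cc).locallyIntegrableOn _
  · intro ψ hψ hψc _ e
    rw [hpr]
    exact Fin.riesz_grad Fin.cc hcc.le hs.measu hs.intu ψ hψ hψc e
  · rw [hflux]
    apply LocallyIntegrable.locallyIntegrableOn
    apply Integrable.locallyIntegrable
    exact hs.intF.congr hH
  · intro φ hφ hφc hφT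
    refine ⟨(hi1 φ hφ hφc).integrableOn, ?_, ?_⟩
    · rw [hfl2]
      exact (hi3 φ hφ hφc).integrableOn
    have hw := hs.weak φ hφ hφc hφT
    rw [hfl2, strip_eq]
    have h1 : ∫ p in ((Set.univ : Set E) ×ˢ Set.Ioo (0:ℝ) T), v p * fderiv ℝ φ p ((0 : E), (1 : ℝ)) =
        ∫ p, v p * fderiv ℝ φ p ((0 : E), (1 : ℝ)) := by
      apply setIntegral_eq_integral_of_forall_compl_eq_zero
      intro p hp
      rw [hs.suppu p, zero_mul]
      intro h
      exact hp ⟨Set.mem_univ _, h⟩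
    have h2 : ∫ p in ((Set.univ : Set E) ×ˢ Set.Ioo (0:ℝ) T),
        v p * fderiv ℝ φ p (G (Fin.kk (Fin.cc / 2)) v p, (0:ℝ))
        = ∫ p, v p * fderiv ℝ φ p (G (Fin.kk (Fin.cc / 2)) v p, (0 : ℝ)) := by
      apply setIntegral_eq_integral_of_forall_compl_eq_zero
      intro p hp
      rw [hs.suppu p, zero_mul]
      intro h
      exact hp ⟨Set.mem_univ _, h⟩
    rw [h1, h2, ← integral_congr_ae (hae φ)]
    exact hw

private theorem near {T : ℝ} (hT : 0 < T) (a : E) {ε : ℝ} (hε : 0 < ε) :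
    ∃ (v : E × ℝ → ℝ) (H : E × ℝ → E), Sub T Fin.u0 v H ∧ (∀ᵐ p, H p = v p • G (Fin.kk (Fin.cc / 2)) v p) ∧
      ∫⁻ p, ‖v p - Fin.us T a p‖ₑ ≤ ENNReal.ofReal ε := by
  have hcc := Fin.cc_pos
  have hκ : 0 < Fin.cc / 2 := by linarith
  have hKer : Ker (Fin.kk (Fin.cc / 2)) := Fin.ker_kk (Fin.cc / 2) hκ (Bub.block (Fin.cc / 2) hκ)
  exact limit_of_stage hKer (stage hKer hT) (Fin.st_us (Fin.cc / 2) hκ.le T hT a) hε

/-- Infinitely many weak solutions with the same initial datum `(1 + |x|)^(-3)`, on every time interval: `n` pairwise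
different ones as close as one likes, in `L¹`, to `n` given translating profiles `u₀ (x - t a)`. -/
theorem result :
    -- the datum is positive, continuous, bounded by one and integrable
    ((∀ x, 0 < datum x) ∧ (∀ x, datum x ≤ 1) ∧ Continuous datum ∧ Integrable datum) ∧
    ∀ T : ℝ, 0 < T → ∀ (n : ℕ) (a : Fin n → EuclideanSpace ℝ (Fin 2)), Function.Injective a → ∀ ε : ℝ, 0 < ε →
      ∃ u : Fin n → EuclideanSpace ℝ (Fin 2) × ℝ → ℝ,
        -- `u i` is a weak solution near the translating profile `u₀ (x - t aᵢ)`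
        (∀ i, Sol T (u i) ∧ IntegrableOn (fun p => |u i p - datum (p.1 - p.2 • a i)|) (strip 2 T) ∧
          ∫ p in strip 2 T, |u i p - datum (p.1 - p.2 • a i)| ≤ ε) ∧
        -- no two of them are equal almost everywhere on the strip
        ∀ i j, i ≠ j → 0 < volume {p ∈ strip 2 T | u i p ≠ u j p} := by
  have hdat : datum = Fin.u0 := rfl
  refine ⟨⟨fun x => Fin.u0_pos x, fun x => Fin.u0_le_one x, Fin.continuous_u0, Fin.integrable_u0⟩,
    fun T hT n a ha ε₀ hε₀ => ?_⟩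
  have hfin : ∀ i j, ∫⁻ p, ‖Fin.us T (a i) p - Fin.us T (a j) p‖ₑ ≠ ⊤ := fun i j =>
    ((Fin.integrable_us T (a i)).sub (Fin.integrable_us T (a j))).2.ne
  obtain ⟨ε₁, hε₁, hε₂⟩ : ∃ ε : ℝ, 0 < ε ∧ ∀ i j, i ≠ j →
      3 * ε ≤ (∫⁻ p, ‖Fin.us T (a i) p - Fin.us T (a j) p‖ₑ).toReal := by
    obtain ⟨d, hd⟩ : ∃ d : Fin n × Fin n → ℝ, d = fun q => if q.1 = q.2 then 1 else
      (∫⁻ p, ‖Fin.us T (a q.1) p - Fin.us T (a q.2) p‖ₑ).toReal := ⟨_, rfl⟩
    have hdpos : ∀ q, 0 < d q := by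
      intro q
      rw [hd]
      show 0 < if q.1 = q.2 then (1 : ℝ) else _
      split_ifs with h
      · exact one_pos
      · exact ENNReal.toReal_pos (us_ne' T hT _ _ (fun h' => h (ha h'))).ne' (hfin _ _)
    rcases (Finset.univ : Finset (Fin n × Fin n)).eq_empty_or_nonempty with h0 | h0
    · refine ⟨1, one_pos, fun i j _ => ?_⟩
      exact absurd (Finset.mem_univ (i, j)) (by rw [h0]; exact Finset.notMem_empty _)
    · obtain ⟨q, -, hq⟩ := Finset.exists_min_image Finset.univ d h0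
      refine ⟨d q / 3, by have := hdpos q; linarith, fun i j hij => ?_⟩
      have h1 := hq (i, j) (Finset.mem_univ _)
      have h2 : d (i, j) = (∫⁻ p, ‖Fin.us T (a i) p - Fin.us T (a j) p‖ₑ).toReal := by
        rw [hd]
        exact if_neg hij
      rw [h2] at h1
      linarith
  obtain ⟨ε, hε, hεa, hεb⟩ : ∃ ε : ℝ, 0 < ε ∧ ε ≤ ε₀ ∧ ε ≤ ε₁ :=
    ⟨min ε₀ ε₁, lt_min hε₀ hε₁, min_le_left _ _, min_le_right _ _⟩
  choose v H hs hH hdd using fun i => near hT (a i) hε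
  refine ⟨v, fun i => ⟨⟨G (Fin.kk (Fin.cc / 2)) (v i), sol (hs i) (hH i), (hs i).intu.integrableOn,
    ((hs i).intF.congr (hH i)).integrableOn⟩, ?_⟩, fun i j hij => ?_⟩
  · have hdif : Integrable (fun p => v i p - Fin.us T (a i) p) := (hs i).intu.sub (Fin.integrable_us T (a i))
    have heq : ∀ p ∈ strip 2 T, |v i p - datum (p.1 - p.2 • a i)| = |v i p - Fin.us T (a i) p| := by
      intro p hp
      have h1 := Fin.us_of_mem T (a i) p.1 p.2 ⟨hp.1, hp.2⟩
      rw [hdat, ← h1]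
    have hms : MeasurableSet (strip 2 T) := by
      rw [strip_eq]
      exact Fin.measS T
    refine ⟨(hdif.abs.integrableOn (s := strip 2 T)).congr_fun (fun p hp => (heq p hp).symm) hms, ?_⟩
    rw [setIntegral_congr_fun hms heq]
    have h2 : ∫ p in strip 2 T, |v i p - Fin.us T (a i) p| ≤ ∫ p, |v i p - Fin.us T (a i) p| :=
      setIntegral_le_integral hdif.abs (Filter.Eventually.of_forall fun p => abs_nonneg _)
    refine h2.trans ?_
    have h3 : ∫ p, |v i p - Fin.us T (a i) p| = (∫⁻ p, ‖v i p - Fin.us T (a i) p‖ₑ).toReal := by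
      have h4 := integral_norm_eq_lintegral_enorm hdif.aestronglyMeasurable
      simpa only [Real.norm_eq_abs] using h4
    rw [h3]
    exact (ENNReal.toReal_le_of_le_ofReal hε.le (hdd i)).trans hεa
  · rw [pos_iff_ne_zero]
    intro h0
    have heq : v i =ᵐ[volume] v j := by
      have h1 : ∀ᵐ p, p ∉ {p ∈ strip 2 T | v i p ≠ v j p} := measure_eq_zero_iff_ae_notMem.1 h0
      filter_upwards [h1] with p hp
      by_cases ht : p.2 ∈ Set.Ioo (0 : ℝ) T
      · by_contra hne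
        exact hp ⟨⟨ht.1, ht.2⟩, hne⟩
      · rw [(hs i).suppu p ht, (hs j).suppu p ht]
    have hbound : ∫⁻ p, ‖Fin.us T (a i) p - Fin.us T (a j) p‖ₑ ≤ ENNReal.ofReal ε + ENNReal.ofReal ε := by
      calc ∫⁻ p, ‖Fin.us T (a i) p - Fin.us T (a j) p‖ₑ
          ≤ ∫⁻ p, (‖v i p - Fin.us T (a i) p‖ₑ + ‖v j p - Fin.us T (a j) p‖ₑ) := by
            apply lintegral_mono_ae
            filter_upwards [heq] with p hp
            have h1 : Fin.us T (a i) p - Fin.us T (a j) p =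
                -(v i p - Fin.us T (a i) p) + (v j p - Fin.us T (a j) p) := by
              rw [hp]; ring
            rw [h1]
            refine (enorm_add_le _ _).trans ?_
            rw [enorm_neg]
        _ = (∫⁻ p, ‖v i p - Fin.us T (a i) p‖ₑ) + ∫⁻ p, ‖v j p - Fin.us T (a j) p‖ₑ := by
            apply lintegral_add_left
            exact ((hs i).measu.sub (Fin.measurable_us T (a i))).enorm
        _ ≤ ENNReal.ofReal ε + ENNReal.ofReal ε := add_le_add (hdd i) (hdd j)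
    rw [← ENNReal.ofReal_add hε.le hε.le] at hbound
    have h1 := ENNReal.toReal_le_of_le_ofReal (by linarith) hbound
    have h2 := hε₂ i j hij
    linarith

end Pool.Agent.Results.MP_948e80_an.NonUniqueness
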